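import Pool.Agent.H.MP_d0305a_co.B

set_option autoImplicit false

namespace Pool.Agent.Results.MP_d0305a_co.Ex
open Set Pool.Agent.H.MP_d0305a_co

noncomputable def om : ℂ := ⟨1 / 2, √3 / 2⟩
noncomputable def ps (w : ℂ) : ℝ × ℝ := (w.re - w.im / √3, 2 * w.im / √3)

theorem s3 : √3 * √3 = 3 := Real.mul_self_sqrt (by norm_num)
theorem s0 : √3 ≠ 0 := by positivity

theorem inC : G x0 Complex.normSq {w | ps w ∈ Tk 12960} 116640 :=
  big.map (aff 0 1 om) ps (aff_cont _ _ _)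
    (fun w => by
      have := s0
      apply Complex.ext <;> simp [aff_apply, ps, om] <;> field_simp <;> ring)
    (fun w => by
      have := s0
      ext <;> simp [aff_apply, ps, om] <;> field_simp <;> ring)
    (fun z w => by
      simp [aff_apply, q0, om, Complex.normSq_apply]
      linear_combination (z.2 - w.2) ^ 2 / 4 * s3)

theorem eqT : {w | ps w ∈ Tk 12960} = tri 0 12960 (12960 * om) := by
  have h : aff (0 : ℂ) 12960 (12960 * om) '' Tk 1 = convexHull ℝ {0, 12960, 12960 * om} := by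
    rw [← hull_std, AffineMap.image_convexHull, image_insert_eq, image_insert_eq, image_singleton]
    simp [aff_apply]
  rw [tri, ← h]
  have := s0
  ext w
  constructor
  · rintro ⟨h1, h2, h3⟩
    refine ⟨((ps w).1 / 12960, (ps w).2 / 12960), ⟨by positivity, by positivity, ?_⟩, ?_⟩
    · simp only; linarith
    · apply Complex.ext <;> simp [aff_apply, ps, om] <;> field_simp <;> ring
  · rintro ⟨z, ⟨h1, h2, h3⟩, rfl⟩
    have e : ps (aff (0 : ℂ) 12960 (12960 * om) z) = (12960 * z.1, 12960 * z.2) := by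
      ext <;> simp [aff_apply, ps, om] <;> field_simp <;> ring
    simp only [mem_ofPred_eq, e, Tk]
    refine ⟨?_, ?_, ?_⟩ <;> linarith

theorem dq {z w : ℂ} {r : ℝ} (hr : 0 ≤ r) (h : Complex.normSq (z - w) = r ^ 2) : dist z w = r := by
  rw [Complex.dist_eq, Complex.norm_def, h, Real.sqrt_sq hr]

theorem tiles : Tiles 32 45 67 (tri 0 12960 (12960 * om)) 116640 := by
  obtain ⟨ι, i1, A, B, C, c1, q1, u1, p1⟩ := inC
  let e := (Fintype.equivFinOfCardEq c1).symm
  refine ⟨A ∘ e, B ∘ e, C ∘ e, fun i => ⟨dq (by norm_num) ?_, dq (by norm_num) ?_,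
    dq (by norm_num) ?_⟩, ?_, fun i j hij => p1 (e.injective.ne hij)⟩
  · exact (q1 (e i)).1.trans (by norm_num [x0])
  · exact (q1 (e i)).2.1.trans (by norm_num [x0])
  · exact (q1 (e i)).2.2.trans (by norm_num [x0])
  · rw [← eqT, ← u1]
    exact e.surjective.iUnion_comp fun i => convexHull ℝ {A i, B i, C i}

theorem equi : Equi 12960 (tri 0 12960 (12960 * om)) := by
  refine ⟨_, _, _, dq (by norm_num) ?_, dq (by norm_num) ?_, dq (by norm_num) ?_, rfl⟩
  · simp [Complex.normSq_apply]; norm_num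
  · simp [Complex.normSq_apply, om]; linear_combination 12960 ^ 2 / 4 * s3
  · simp [Complex.normSq_apply, om]; linear_combination 12960 ^ 2 / 4 * s3

theorem result : ¬ ∀ a b c : ℕ, 0 < a → 0 < b → 0 < c →
    a.Coprime b → b.Coprime c → a.Coprime c → c ^ 2 = a ^ 2 + b ^ 2 + a * b →
    ¬ ((∃ r : ℚ, ang a b c = r * Real.pi) ∧ (∃ r : ℚ, ang b c a = r * Real.pi) ∧
      (∃ r : ℚ, ang c a b = r * Real.pi)) →
    ¬ (a = b ∧ b = c) →
    {N : ℕ | ∃ (X : ℝ) (T : Set ℂ), 0 < X ∧ Equi X T ∧ Tiles a b c T N} =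
      {N : ℕ | ∃ m : ℤ, 3 * ⌈((c : ℚ) ^ 2 - a - b) / (a * b)⌉ ≤ m ∧ (N : ℤ) = m ^ 2 * a * b} := by
  intro H
  have h := H 32 45 67 (by norm_num) (by norm_num) (by norm_num) (by norm_num) (by norm_num)
    (by norm_num) (by norm_num) ?_ (by norm_num)
  · have m : 116640 ∈ {N : ℕ | ∃ (X : ℝ) (T : Set ℂ), 0 < X ∧ Equi X T ∧
        Tiles (32 : ℕ) (45 : ℕ) (67 : ℕ) T N} :=
      ⟨12960, _, by norm_num, equi, by exact_mod_cast tiles⟩
    rw [h] at m
    obtain ⟨m, h1, h2⟩ := m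
    have : (3 : ℤ) < ⌈((((67 : ℕ) : ℚ)) ^ 2 - (32 : ℕ) - (45 : ℕ)) / ((32 : ℕ) * (45 : ℕ))⌉ := by
      rw [Int.lt_ceil]; norm_num
    push_cast at h2
    nlinarith
  · rintro ⟨h, -, -⟩
    have c : Real.cos (ang (32 : ℕ) (45 : ℕ) (67 : ℕ)) = 61 / 67 := by
      rw [ang, Real.cos_arccos] <;> norm_num
    have := niven h ⟨61 / 67, by rw [c]; norm_num⟩
    rw [c] at this
    norm_num at this

end Pool.Agent.Results.MP_d0305a_co.Ex
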